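import Mathlib
import Pool.Agent.V5helper26.IR.Stm
import Pool.Agent.TH161.LW.Count

/-!
# Project IR (helper26), job LIM (helper47)
-/

set_option autoImplicit false

open Finset Filter Topology
open scoped Classical

namespace Pool.Agent.V5helper47.IR

open Pool.Agent.V5helper26.IR
open Pool.Agent.TH161.LW (eN eP eN_eq eP_eq card_inj_lt card_noninj card_Om_split tendsto_choose tendsto_noninj
  tendsto_Om)

variable {α : Type} [Fintype α] [PartialOrder α]

theorem Om_eq (M : ℕ) : Om (fun a b : α => a < b) M = Pool.Agent.TH161.LW.Om α M := by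
  ext f
  simp only [Om, Pool.Agent.TH161.LW.Om, mem_filter]
  refine and_congr_right fun _ => ⟨fun h a b hab => ?_, fun h a b hab => h hab.le⟩
  rcases hab.lt_or_eq with h1 | h1
  · exact h a b h1
  · rw [h1]

theorem Lin_card : (Pool.Agent.TH447.KS.Lin (fun a b : α => a < b)).card = eN α := by
  rw [eN_eq]
  congr 1

theorem cnt_eq (x y : α) : Pool.Agent.TH447.KS.cnt (fun a b : α => a < b) x y = eP α x y := by
  rw [Pool.Agent.TH447.KS.cnt, Finset.sum_boole, eP_eq]
  congr 2
  ext σ
  simp only [Pool.Agent.TH447.KS.Lin, mem_filter, mem_univ, true_and]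
  exact ⟨fun h => ⟨fun a b hab => h.1 a b hab, h.2⟩, fun h => ⟨fun a b hab => h.1 hab, h.2⟩⟩

theorem eN_pos : 0 < eN α := by
  rw [← Lin_card]
  exact Pool.Agent.TH447.KS.lin_pos

theorem sg_eq (a b : ℕ) : sg a b = (if a < b then (1 : ℝ) else 0) - if b < a then (1 : ℝ) else 0 := by
  unfold sg
  split_ifs with h1 h2 h2 <;> first | omega | norm_num

theorem sum_sg (x y : α) (M : ℕ) :
    |∑ f ∈ Om (fun a b : α => a < b) M, sg (f x) (f y) -
      ((eP α x y : ℝ) - eP α y x) * M.choose (Fintype.card α)| ≤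
    (((Pool.Agent.TH161.LW.Om α M).filter fun f => ¬ Function.Injective f).card : ℝ) := by
  rw [Om_eq, ← Finset.sum_filter_add_sum_filter_not _ (fun f : α → ℕ => Function.Injective f)]
  have h1 : ∑ f ∈ (Pool.Agent.TH161.LW.Om α M).filter (fun f => Function.Injective f), sg (f x) (f y) =
      ((eP α x y : ℝ) - eP α y x) * M.choose (Fintype.card α) := by
    simp_rw [sg_eq]
    rw [Finset.sum_sub_distrib, Finset.sum_boole, Finset.sum_boole, Finset.filter_filter, Finset.filter_filter,
      card_inj_lt M x y, card_inj_lt M y x]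
    push_cast
    ring
  rw [h1, add_sub_cancel_left]
  refine (Finset.abs_sum_le_sum_abs _ _).trans ?_
  refine (Finset.sum_le_sum (g := fun _ => (1 : ℝ)) fun f _ => ?_).trans (by simp)
  unfold sg
  split_ifs <;> norm_num

/-- job LIM -/
theorem t_LIM : S_LIM := by
  intro α _ _ x y _
  rw [cnt_eq, cnt_eq, Lin_card]
  have hf : ((Fintype.card α).factorial : ℝ) ≠ 0 := by
    exact_mod_cast (Fintype.card α).factorial_ne_zero
  have heN : (eN α : ℝ) ≠ 0 := by
    have := eN_pos (α := α)
    positivity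
  have h1 : Tendsto (fun M : ℕ => (∑ f ∈ Om (fun a b : α => a < b) M, sg (f x) (f y)) / (M : ℝ) ^ Fintype.card α)
      atTop (𝓝 (((eP α x y : ℝ) - eP α y x) * (1 / (Fintype.card α).factorial))) := by
    have h2 := (tendsto_choose (Fintype.card α)).const_mul ((eP α x y : ℝ) - eP α y x)
    have h3 : Tendsto (fun M : ℕ => (∑ f ∈ Om (fun a b : α => a < b) M, sg (f x) (f y)) / (M : ℝ) ^ Fintype.card α -
        ((eP α x y : ℝ) - eP α y x) * ((M.choose (Fintype.card α) : ℝ) / (M : ℝ) ^ Fintype.card α)) atTop (𝓝 0) := by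
      refine squeeze_zero_norm (fun M => ?_) (tendsto_noninj (α := α))
      rw [Real.norm_eq_abs, ← mul_div_assoc, ← sub_div, abs_div, abs_of_nonneg (by positivity : (0:ℝ) ≤ (M : ℝ) ^ Fintype.card α)]
      exact div_le_div_of_nonneg_right (sum_sg x y M) (by positivity)
    have h4 := h3.add h2
    rw [zero_add] at h4
    refine h4.congr fun M => ?_
    ring
  have h5 := h1.div (tendsto_Om (α := α)) (by positivity)
  have e : ((eP α x y : ℝ) - eP α y x) * (1 / (Fintype.card α).factorial) /
      ((eN α : ℝ) * (1 / (Fintype.card α).factorial)) = ((eP α x y : ℝ) - eP α y x) / eN α := by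
    field_simp
  rw [e] at h5
  refine h5.congr' ?_
  filter_upwards [eventually_gt_atTop 0] with M hM
  have hM' : (0 : ℝ) < M := by exact_mod_cast hM
  simp only [Pi.div_apply]
  rw [ex, Om_eq, div_div_div_cancel_right₀ (by positivity)]

end Pool.Agent.V5helper47.IR
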