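import Mathlib
import Pool.Agent.V5helper47.IR.LIM

/-!
# Project IR (helper26), job RANGE (helper47)
-/

set_option autoImplicit false

open Finset Filter Topology
open scoped Classical

namespace Pool.Agent.V5helper47.IR

open Pool.Agent.V5helper26.IR
open Pool.Agent.TH161.LW (eN tendsto_Om)
open Pool.Agent.TH447.KS (Lin mem_Lin Same same_eq pos_eq inc)

variable {α : Type} [Fintype α] [PartialOrder α]

/-- the strict order -/
abbrev lt (α : Type) [PartialOrder α] : α → α → Prop := fun a b => a < b

theorem exists_restr (x : α) (σ : Pool.Agent.TH447.KS.Ord α) :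
    ∃ τ : Pool.Agent.TH447.KS.Ord {z : α // z ≠ x}, ∀ a b, τ a < τ b ↔ σ a.1 < σ b.1 := by
  obtain ⟨τ, hτ⟩ := Pool.Agent.H931R3.Bal.exists_rank (fun a : {z : α // z ≠ x} => σ a.1)
    (fun a b hab => Subtype.ext (σ.injective hab)) rfl
  exact ⟨τ, hτ⟩

/-- restriction -/
noncomputable def restr (x : α) (σ : Pool.Agent.TH447.KS.Ord α) : Pool.Agent.TH447.KS.Ord {z : α // z ≠ x} := (exists_restr x σ).choose

theorem restr_lt (x : α) (σ : Pool.Agent.TH447.KS.Ord α) (a b : {z : α // z ≠ x}) :
    restr x σ a < restr x σ b ↔ σ a.1 < σ b.1 := (exists_restr x σ).choose_spec a b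

theorem restr_mem (x : α) {σ : Pool.Agent.TH447.KS.Ord α} (h : σ ∈ Lin (lt α)) : restr x σ ∈ Lin (lt {z : α // z ≠ x}) := by
  rw [mem_Lin] at h ⊢
  intro a b hab
  rw [restr_lt]
  exact h a.1 b.1 hab

theorem fibre_le (x : α) (τ : Pool.Agent.TH447.KS.Ord {z : α // z ≠ x}) :
    ((Lin (lt α)).filter fun σ => restr x σ = τ).card ≤ inc (lt α) x := by
  set d := (univ.filter fun z : α => z < x).card with hd
  have h1 : ((Lin (lt α)).filter fun σ => restr x σ = τ).card ≤ (Ico d (d + inc (lt α) x)).card := by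
    refine Finset.card_le_card_of_injOn (fun σ => (σ x : ℕ)) ?_ ?_
    · intro σ hσ
      have hσ' := Finset.mem_filter.1 (Finset.mem_coe.1 hσ)
      have hL := mem_Lin.1 hσ'.1
      rw [Finset.coe_Ico, Set.mem_Ico]
      simp only
      rw [pos_eq]
      constructor
      · refine Finset.card_le_card fun z hz => ?_
        simp only [mem_filter, mem_univ, true_and] at hz ⊢
        exact hL z x hz
      · have h2 : insert x (univ.filter fun z => σ z < σ x) ⊆
            (univ.filter fun z : α => z < x) ∪ (univ.filter fun z : α => ¬ lt α x z ∧ ¬ lt α z x) := by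
          intro z hz
          rw [mem_union]
          by_cases hzx : z < x
          · exact Or.inl (by simp [hzx])
          · right
            rcases mem_insert.1 hz with rfl | hz
            · simp [lt]
            · simp only [mem_filter, mem_univ, true_and] at hz ⊢
              exact ⟨fun h => absurd (hL x z h) (not_lt.2 hz.le), hzx⟩
        have h3 := (Finset.card_le_card h2).trans (Finset.card_union_le _ _)
        rw [Finset.card_insert_of_notMem (by simp)] at h3
        unfold inc
        omega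
    · intro σ hσ σ' hσ' hx
      have h1 := Finset.mem_filter.1 (Finset.mem_coe.1 hσ)
      have h2 := Finset.mem_filter.1 (Finset.mem_coe.1 hσ')
      refine same_eq (y := x) ?_ (Fin.ext hx)
      intro a b ha hb
      rw [← restr_lt x σ ⟨a, ha⟩ ⟨b, hb⟩, ← restr_lt x σ' ⟨a, ha⟩ ⟨b, hb⟩, h1.2, h2.2]
  rwa [Nat.card_Ico, add_tsub_cancel_left] at h1

theorem e_le (x : α) : eN α ≤ inc (lt α) x * eN {z : α // z ≠ x} := by
  rw [← Lin_card, ← Lin_card]
  exact Finset.card_le_mul_card_image_of_maps_to (fun σ hσ => restr_mem x hσ) _ fun τ _ => fibre_le x τ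

theorem exists_ext (x : α) {τ : Pool.Agent.TH447.KS.Ord {z : α // z ≠ x}} (h : τ ∈ Lin (lt {z : α // z ≠ x})) :
    ∃ σ ∈ Lin (lt α), restr x σ = τ := by
  rw [mem_Lin] at h
  set c : ℕ := (univ.filter fun z : {z : α // z ≠ x} => z.1 < x).sup fun z => (τ z : ℕ) + 1 with hc
  let key : α → ℕ := fun z => if hz : z = x then 2 * c + 1 else 2 * (τ ⟨z, hz⟩ : ℕ) + 2
  have kx : key x = 2 * c + 1 := by simp [key]
  have kn : ∀ z (hz : z ≠ x), key z = 2 * (τ ⟨z, hz⟩ : ℕ) + 2 := fun z hz => by simp [key, hz]
  have hkey : Function.Injective key := by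
    intro a b hab
    by_cases ha : a = x <;> by_cases hb : b = x
    · rw [ha, hb]
    · rw [ha, kx, kn b hb] at hab
      omega
    · rw [hb, kx, kn a ha] at hab
      omega
    · rw [kn a ha, kn b hb] at hab
      have h1 : τ ⟨a, ha⟩ = τ ⟨b, hb⟩ := Fin.ext (by omega)
      have h2 := τ.injective h1
      exact congrArg Subtype.val h2
  obtain ⟨σ, hσ⟩ := Pool.Agent.H931R3.Bal.exists_rank key hkey (rfl : Fintype.card α = _)
  refine ⟨σ, mem_Lin.2 fun a b hab => ?_, Pool.Agent.H931R3.Bal.rank_unique _ _ fun a b => ?_⟩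
  · rw [hσ]
    have hab' : a < b := hab
    by_cases ha : a = x
    · have hb : b ≠ x := by
        rintro rfl
        exact absurd hab' (by rw [ha]; exact lt_irrefl _)
      rw [ha, kx, kn b hb]
      have h1 : c ≤ (τ ⟨b, hb⟩ : ℕ) := by
        refine Finset.sup_le fun z hz => ?_
        have hz' : z.1 < x := (Finset.mem_filter.1 hz).2
        have h2 := h z ⟨b, hb⟩ (show z.1 < b from hz'.trans (ha ▸ hab'))
        rw [Fin.lt_def] at h2
        omega
      omega
    · by_cases hb : b = x
      · rw [hb, kx, kn a ha]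
        have h1 : (τ ⟨a, ha⟩ : ℕ) + 1 ≤ c :=
          Finset.le_sup (f := fun z : {z : α // z ≠ x} => (τ z : ℕ) + 1)
            (Finset.mem_filter.2 ⟨mem_univ _, (show a < x from hb ▸ hab')⟩)
        omega
      · rw [kn a ha, kn b hb]
        have h2 := h ⟨a, ha⟩ ⟨b, hb⟩ hab'
        rw [Fin.lt_def] at h2
        omega
  · have ea : key a.1 = 2 * (τ a : ℕ) + 2 := kn a.1 a.2
    have eb : key b.1 = 2 * (τ b : ℕ) + 2 := kn b.1 b.2
    rw [restr_lt, hσ, ea, eb, Fin.lt_def]
    omega

theorem e_ge (x : α) : eN {z : α // z ≠ x} ≤ eN α := by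
  rw [← Lin_card, ← Lin_card]
  refine Finset.card_le_card_of_surjOn (restr x) fun τ hτ => ?_
  obtain ⟨σ, h1, h2⟩ := exists_ext x (Finset.mem_coe.1 hτ)
  exact ⟨σ, h1, h2⟩

theorem card_W (x : α) {M : ℕ} (hM : 1 ≤ M) : ((Om (lt α) M).filter fun f => f x = lo (lt α) f x).card =
    (Pool.Agent.TH161.LW.Om {z : α // z ≠ x} M).card := by
  refine Finset.card_nbij' (fun f z => f z.1)
    (fun g z => if h : z = x then (univ.filter fun w : {z : α // z ≠ x} => w.1 < x).sup g else g ⟨z, h⟩) ?_ ?_ ?_ ?_
  · intro f hf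
    have hf' := Finset.mem_filter.1 (Finset.mem_coe.1 hf)
    rw [Om_eq, Pool.Agent.TH161.LW.mem_Om] at hf'
    refine Finset.mem_coe.2 (Pool.Agent.TH161.LW.mem_Om.2 ⟨fun z => hf'.1.1 z.1, fun a b hab => hf'.1.2 hab⟩)
  · intro g hg
    have hg' := Pool.Agent.TH161.LW.mem_Om.1 (Finset.mem_coe.1 hg)
    refine Finset.mem_coe.2 (Finset.mem_filter.2 ⟨?_, ?_⟩)
    · refine Finset.mem_filter.2 ⟨Fintype.mem_piFinset.2 fun z => mem_range.2 ?_, fun a b hab => ?_⟩
      · by_cases hz : z = x
        · simp only [hz, dif_pos]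
          exact (Finset.sup_lt_iff (by rw [Nat.bot_eq_zero]; omega)).2 fun w _ => hg'.1 w
        · simp only [hz, dif_neg, not_false_eq_true]
          exact hg'.1 _
      · have hab' : a < b := hab
        by_cases ha : a = x
        · have hb : b ≠ x := by
            rintro rfl
            exact absurd hab' (by rw [ha]; exact lt_irrefl _)
          simp only [ha, hb, dif_pos, dif_neg, not_false_eq_true]
          refine Finset.sup_le fun w hw => hg'.2 ?_
          have hw' : w.1 < x := (Finset.mem_filter.1 hw).2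
          exact (show w.1 ≤ b from (hw'.trans (ha ▸ hab')).le)
        · by_cases hb : b = x
          · simp only [ha, hb, dif_pos, dif_neg, not_false_eq_true]
            exact Finset.le_sup (f := g) (Finset.mem_filter.2 ⟨mem_univ _, (show a < x from hb ▸ hab')⟩)
          · simp only [ha, hb, dif_neg, not_false_eq_true]
            exact hg'.2 hab'.le
    · simp only [dif_pos]
      unfold lo
      apply le_antisymm
      · refine Finset.sup_le fun w hw => ?_
        have hw' : w.1 < x := (Finset.mem_filter.1 hw).2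
        refine le_trans ?_ (Finset.le_sup (Finset.mem_filter.2 ⟨mem_univ w.1, hw'⟩))
        simp [w.2]
      · refine Finset.sup_le fun z hz => ?_
        have hz' : z < x := (Finset.mem_filter.1 hz).2
        have hne : z ≠ x := hz'.ne
        simp only [hne, dif_neg, not_false_eq_true]
        exact Finset.le_sup (f := g) (Finset.mem_filter.2 ⟨mem_univ _, hz'⟩)
  · intro f hf
    have hf' := Finset.mem_filter.1 (Finset.mem_coe.1 hf)
    funext z
    by_cases hz : z = x
    · subst hz
      simp only [dif_pos]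
      rw [hf'.2]
      unfold lo
      apply le_antisymm
      · refine Finset.sup_le fun w hw => ?_
        exact Finset.le_sup (f := f) (Finset.mem_filter.2 ⟨mem_univ w.1, (Finset.mem_filter.1 hw).2⟩)
      · refine Finset.sup_le fun w hw => ?_
        have hw' : w < z := (Finset.mem_filter.1 hw).2
        exact Finset.le_sup (f := fun w : {y : α // y ≠ z} => f w.1) (b := ⟨w, hw'.ne⟩)
          (Finset.mem_filter.2 ⟨mem_univ _, hw'⟩)
    · simp only [hz, dif_neg, not_false_eq_true]
  · intro g _
    funext z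
    simp only [z.2, dif_neg, not_false_eq_true]

theorem card_sub (x : α) : Fintype.card {z : α // z ≠ x} + 1 = Fintype.card α := by
  have h : Fintype.card {z : α // z ≠ x} = (univ.erase x).card := by
    rw [Fintype.card_subtype]
    congr 1
    ext z
    simp
  rw [h, Finset.card_erase_of_mem (mem_univ x), Finset.card_univ]
  have : 0 < Fintype.card α := Fintype.card_pos_iff.2 ⟨x⟩
  omega

theorem tendsto_kap (x : α) : Tendsto (fun M : ℕ => Fintype.card α * kap (lt α) M x / M) atTop
    (𝓝 ((eN α : ℝ) / eN {z : α // z ≠ x})) := by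
  set k := Fintype.card {z : α // z ≠ x} with hk
  have hn : Fintype.card α = k + 1 := (card_sub x).symm
  have h1 := tendsto_Om (α := α)
  have h2 := tendsto_Om (α := {z : α // z ≠ x})
  rw [hn] at h1
  rw [← hk] at h2
  have hf : (k.factorial : ℝ) ≠ 0 := by exact_mod_cast k.factorial_ne_zero
  have he : (eN {z : α // z ≠ x} : ℝ) ≠ 0 := by
    have := eN_pos (α := {z : α // z ≠ x})
    positivity
  have h3 := ((h1.div h2 (by positivity)).const_mul ((k : ℝ) + 1))
  have e : ((k : ℝ) + 1) * ((eN α : ℝ) * (1 / ((k + 1).factorial : ℝ)) /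
      ((eN {z : α // z ≠ x} : ℝ) * (1 / (k.factorial : ℝ)))) = (eN α : ℝ) / eN {z : α // z ≠ x} := by
    rw [Nat.factorial_succ]
    push_cast
    have : (k : ℝ) + 1 ≠ 0 := by positivity
    field_simp
  rw [e] at h3
  refine h3.congr' ?_
  filter_upwards [eventually_ge_atTop 1] with M hM
  have hM' : (0 : ℝ) < M := by exact_mod_cast hM
  simp only [Pi.div_apply]
  rw [kap, card_W x hM, Om_eq, hn, pow_succ]
  push_cast
  field_simp

/-- job RANGE -/
theorem t_RANGE : S_RANGE := by
  intro α _ _
  rw [eventually_all]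
  intro x
  have h := tendsto_kap x
  have he : (0 : ℝ) < eN {z : α // z ≠ x} := by exact_mod_cast eN_pos (α := {z : α // z ≠ x})
  have h1 : (1 : ℝ) ≤ (eN α : ℝ) / eN {z : α // z ≠ x} := by
    rw [le_div_iff₀ he, one_mul]
    exact_mod_cast e_ge x
  have h2 : (eN α : ℝ) / eN {z : α // z ≠ x} ≤ inc (lt α) x := by
    rw [div_le_iff₀ he]
    exact_mod_cast e_le x
  filter_upwards [eventually_ge_atTop 1, h.eventually_const_lt (show (1 / 2 : ℝ) < (eN α : ℝ) / eN {z : α // z ≠ x} by linarith),
    h.eventually_lt_const (show (eN α : ℝ) / eN {z : α // z ≠ x} < 2 * ((eN α : ℝ) / eN {z : α // z ≠ x}) by linarith)]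
    with M hM g1 g2
  have hM' : (0 : ℝ) < M := by exact_mod_cast hM
  rw [lt_div_iff₀ hM'] at g1
  rw [div_lt_iff₀ hM'] at g2
  constructor
  · linarith
  · refine g2.le.trans ?_
    exact mul_le_mul_of_nonneg_right (by linarith) hM'.le

end Pool.Agent.V5helper47.IR
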